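import Pool.Agent.Helper4.RK.Defs

/-!
# Closure properties of read-k branching programs of bounded width
-/

namespace Pool.Agent.Helper4.RK

open MvPolynomial

variable {n : ℕ} {ι κ : Type} [Fintype ι] [DecidableEq ι] [Fintype κ] [DecidableEq κ]

/-- One layer as a matrix of multivariate polynomials. -/
noncomputable def lay (p : Fin n × Matrix ι ι (Polynomial ℂ)) :
    Matrix ι ι (MvPolynomial (Fin n) ℂ) :=
  p.2.map fun q => Polynomial.aeval (X p.1 : MvPolynomial (Fin n) ℂ) q

theorem lprod_nil : lprod ([] : List (Fin n × Matrix ι ι (Polynomial ℂ))) = 1 := rfl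

theorem lprod_cons (p : Fin n × Matrix ι ι (Polynomial ℂ))
    (L : List (Fin n × Matrix ι ι (Polynomial ℂ))) : lprod (p :: L) = lay p * lprod L := by
  simp [lprod, lay]

theorem lprod_append (L L' : List (Fin n × Matrix ι ι (Polynomial ℂ))) :
    lprod (L ++ L') = lprod L * lprod L' := by
  simp [lprod]

theorem RKi.reindex (e : ι ≃ κ) {k : ℕ} {f : MvPolynomial (Fin n) ℂ} (h : RKi ι k f) :
    RKi κ k f := by
  obtain ⟨L, u, v, hk, rfl⟩ := h
  refine ⟨L.map fun p => (p.1, p.2.submatrix e.symm e.symm), fun i => u (e.symm i),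
    fun j => v (e.symm j), ?_, ?_⟩
  · intro i
    simpa [Function.comp_def] using hk i
  · have key : lprod (L.map fun p => (p.1, p.2.submatrix e.symm e.symm)) =
        (lprod L).submatrix e.symm e.symm := by
      clear hk
      induction L with
      | nil => simp [lprod_nil]
      | cons p L ih =>
        rw [List.map_cons, lprod_cons, lprod_cons, ih, ← Matrix.submatrix_mul_equiv _ _ _ e.symm]
        rfl
    rw [key, ← e.sum_comp]
    refine Finset.sum_congr rfl fun i _ => ?_
    rw [← e.sum_comp]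
    refine Finset.sum_congr rfl fun j _ => ?_
    simp

theorem RKi.zero {k : ℕ} : RKi ι k (0 : MvPolynomial (Fin n) ℂ) :=
  ⟨[], 0, 0, by simp, by simp⟩

theorem RKi.mono {k k' : ℕ} (hk : k ≤ k') {f : MvPolynomial (Fin n) ℂ} (h : RKi ι k f) :
    RKi ι k' f := by
  obtain ⟨L, u, v, hL, rfl⟩ := h
  exact ⟨L, u, v, fun i => (hL i).trans hk, rfl⟩

theorem RKi.smul {k : ℕ} {f : MvPolynomial (Fin n) ℂ} (c : ℂ) (h : RKi ι k f) :
    RKi ι k (C c * f) := by
  obtain ⟨L, u, v, hL, rfl⟩ := h
  refine ⟨L, fun i => c * u i, v, hL, ?_⟩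
  rw [Finset.mul_sum]
  refine Finset.sum_congr rfl fun i _ => ?_
  rw [Finset.mul_sum]
  refine Finset.sum_congr rfl fun j _ => ?_
  rw [C_mul]
  ring

theorem lprod_blocks_left (L : List (Fin n × Matrix ι ι (Polynomial ℂ))) :
    lprod (L.map fun p => (p.1, Matrix.fromBlocks p.2 0 0 (1 : Matrix κ κ (Polynomial ℂ)))) =
      Matrix.fromBlocks (lprod L) 0 0 1 := by
  induction L with
  | nil => simp [lprod_nil]
  | cons p L ih =>
    rw [List.map_cons, lprod_cons, lprod_cons, ih]
    have h1 : lay (p.1, Matrix.fromBlocks p.2 0 0 (1 : Matrix κ κ (Polynomial ℂ))) =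
        Matrix.fromBlocks (lay p) 0 0 1 := by
      simp only [lay, Matrix.fromBlocks_map]
      congr 1
      · ext i j; simp
      · ext i j; simp
      · rw [Matrix.map_one _ (by simp) (by simp)]
    rw [h1, Matrix.fromBlocks_multiply]
    simp

theorem lprod_blocks_right (L : List (Fin n × Matrix κ κ (Polynomial ℂ))) :
    lprod (L.map fun p => (p.1, Matrix.fromBlocks (1 : Matrix ι ι (Polynomial ℂ)) 0 0 p.2)) =
      Matrix.fromBlocks 1 0 0 (lprod L) := by
  induction L with
  | nil => simp [lprod_nil]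
  | cons p L ih =>
    rw [List.map_cons, lprod_cons, lprod_cons, ih]
    have h1 : lay (p.1, Matrix.fromBlocks (1 : Matrix ι ι (Polynomial ℂ)) 0 0 p.2) =
        Matrix.fromBlocks 1 0 0 (lay p) := by
      simp only [lay, Matrix.fromBlocks_map]
      congr 1
      · rw [Matrix.map_one _ (by simp) (by simp)]
      · ext i j; simp
      · ext i j; simp
    rw [h1, Matrix.fromBlocks_multiply]
    simp

theorem RKi.add {k k' : ℕ} {f g : MvPolynomial (Fin n) ℂ} (hf : RKi ι k f) (hg : RKi κ k' g) :
    RKi (ι ⊕ κ) (k + k') (f + g) := by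
  obtain ⟨L, u, v, hL, rfl⟩ := hf
  obtain ⟨L', u', v', hL', rfl⟩ := hg
  refine ⟨(L.map fun p => (p.1, Matrix.fromBlocks p.2 0 0 (1 : Matrix κ κ (Polynomial ℂ)))) ++
    (L'.map fun p => (p.1, Matrix.fromBlocks (1 : Matrix ι ι (Polynomial ℂ)) 0 0 p.2)),
    Sum.elim u u', Sum.elim v v', ?_, ?_⟩
  · intro i
    rw [List.map_append, List.count_append]
    refine Nat.add_le_add ?_ ?_
    · simpa [Function.comp_def] using hL i
    · simpa [Function.comp_def] using hL' i
  · rw [lprod_append, lprod_blocks_left, lprod_blocks_right, Matrix.fromBlocks_multiply]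
    simp [Fintype.sum_sum_type]

theorem lprod_kron_left (L : List (Fin n × Matrix ι ι (Polynomial ℂ))) :
    lprod (L.map fun p => (p.1, Matrix.kronecker p.2 (1 : Matrix κ κ (Polynomial ℂ)))) =
      Matrix.kronecker (lprod L) 1 := by
  induction L with
  | nil =>
    rw [List.map_nil, lprod_nil, lprod_nil]
    exact Matrix.one_kronecker_one.symm
  | cons p L ih =>
    rw [List.map_cons, lprod_cons, lprod_cons, ih]
    have h1 : lay (p.1, Matrix.kronecker p.2 (1 : Matrix κ κ (Polynomial ℂ))) =
        Matrix.kronecker (lay p) 1 := by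
      ext ⟨i, i'⟩ ⟨j, j'⟩
      by_cases h : i' = j'
      · subst h; simp [lay, Matrix.kronecker]
      · simp [lay, Matrix.kronecker, Matrix.one_apply_ne h]
    rw [h1]
    have := Matrix.mul_kronecker_mul (lay p) (lprod L) (1 : Matrix κ κ (MvPolynomial (Fin n) ℂ))
      (1 : Matrix κ κ (MvPolynomial (Fin n) ℂ))
    rw [one_mul] at this
    exact this.symm

theorem lprod_kron_right (L : List (Fin n × Matrix κ κ (Polynomial ℂ))) :
    lprod (L.map fun p => (p.1, Matrix.kronecker (1 : Matrix ι ι (Polynomial ℂ)) p.2)) =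
      Matrix.kronecker 1 (lprod L) := by
  induction L with
  | nil =>
    rw [List.map_nil, lprod_nil, lprod_nil]
    exact Matrix.one_kronecker_one.symm
  | cons p L ih =>
    rw [List.map_cons, lprod_cons, lprod_cons, ih]
    have h1 : lay (p.1, Matrix.kronecker (1 : Matrix ι ι (Polynomial ℂ)) p.2) =
        Matrix.kronecker 1 (lay p) := by
      ext ⟨i, i'⟩ ⟨j, j'⟩
      by_cases h : i = j
      · subst h; simp [lay, Matrix.kronecker]
      · simp [lay, Matrix.kronecker, Matrix.one_apply_ne h]
    rw [h1]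
    have := Matrix.mul_kronecker_mul (1 : Matrix ι ι (MvPolynomial (Fin n) ℂ))
      (1 : Matrix ι ι (MvPolynomial (Fin n) ℂ)) (lay p) (lprod L)
    rw [one_mul] at this
    exact this.symm

theorem RKi.mul {k k' : ℕ} {f g : MvPolynomial (Fin n) ℂ} (hf : RKi ι k f) (hg : RKi κ k' g) :
    RKi (ι × κ) (k + k') (f * g) := by
  obtain ⟨L, u, v, hL, rfl⟩ := hf
  obtain ⟨L', u', v', hL', rfl⟩ := hg
  refine ⟨(L.map fun p => (p.1, Matrix.kronecker p.2 (1 : Matrix κ κ (Polynomial ℂ)))) ++
    (L'.map fun p => (p.1, Matrix.kronecker (1 : Matrix ι ι (Polynomial ℂ)) p.2)),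
    fun i => u i.1 * u' i.2, fun j => v j.1 * v' j.2, ?_, ?_⟩
  · intro i
    rw [List.map_append, List.count_append]
    refine Nat.add_le_add ?_ ?_
    · simpa [Function.comp_def] using hL i
    · simpa [Function.comp_def] using hL' i
  · have h : lprod ((L.map fun p => (p.1, Matrix.kronecker p.2 (1 : Matrix κ κ (Polynomial ℂ)))) ++
        (L'.map fun p => (p.1, Matrix.kronecker (1 : Matrix ι ι (Polynomial ℂ)) p.2))) =
        Matrix.kronecker (lprod L) (lprod L') := by
      rw [lprod_append, lprod_kron_left, lprod_kron_right]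
      have := Matrix.mul_kronecker_mul (lprod L) (1 : Matrix ι ι (MvPolynomial (Fin n) ℂ))
        (1 : Matrix κ κ (MvPolynomial (Fin n) ℂ)) (lprod L')
      rw [one_mul, mul_one] at this
      exact this.symm
    rw [h, Fintype.sum_prod_type, Finset.sum_mul]
    refine Finset.sum_congr rfl fun i _ => ?_
    rw [Finset.mul_sum]
    refine Finset.sum_congr rfl fun i' _ => ?_
    rw [Finset.sum_mul, Fintype.sum_prod_type]
    refine Finset.sum_congr rfl fun j _ => ?_
    rw [Finset.mul_sum]
    refine Finset.sum_congr rfl fun j' _ => ?_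
    simp only [Matrix.kronecker, Matrix.kroneckerMap_apply, C_mul]
    ring

theorem pderiv_aeval_X (e i : Fin n) (q : Polynomial ℂ) :
    pderiv e (Polynomial.aeval (X i : MvPolynomial (Fin n) ℂ) q) =
      if i = e then Polynomial.aeval (X i : MvPolynomial (Fin n) ℂ) (Polynomial.derivative q)
      else 0 := by
  induction q using Polynomial.induction_on' with
  | add p q hp hq =>
    rw [map_add, map_add, hp, hq]
    split_ifs <;> simp
  | monomial m a =>
    rw [Polynomial.aeval_monomial, Polynomial.derivative_monomial, Polynomial.aeval_monomial]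
    rw [Derivation.leibniz, Derivation.leibniz_pow]
    by_cases h : i = e
    · subst h
      simp [MvPolynomial.algebraMap_eq]
      ring
    · simp [h, MvPolynomial.algebraMap_eq, pderiv_X]

/-- The layer computing a matrix and its derivative. -/
noncomputable def dlay (e : Fin n) (p : Fin n × Matrix ι ι (Polynomial ℂ)) :
    Fin n × Matrix (ι ⊕ ι) (ι ⊕ ι) (Polynomial ℂ) :=
  (p.1, Matrix.fromBlocks p.2 (if p.1 = e then p.2.map (fun q => Polynomial.derivative q) else 0)
    0 p.2)

omit [Fintype ι] [DecidableEq ι] in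
theorem lay_dlay (e : Fin n) (p : Fin n × Matrix ι ι (Polynomial ℂ)) :
    lay (dlay e p) = Matrix.fromBlocks (lay p) ((lay p).map (fun q => pderiv e q)) 0 (lay p) := by
  simp only [lay, dlay, Matrix.fromBlocks_map]
  congr 1
  · ext i j
    simp only [Matrix.map_apply]
    rw [pderiv_aeval_X]
    by_cases h : p.1 = e
    · simp [h]
    · simp [h]
  · ext i j; simp

theorem lprod_dlay (e : Fin n) (L : List (Fin n × Matrix ι ι (Polynomial ℂ))) :
    lprod (L.map (dlay e)) =
      Matrix.fromBlocks (lprod L) ((lprod L).map (fun q => pderiv e q)) 0 (lprod L) := by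
  induction L with
  | nil =>
    rw [List.map_nil, lprod_nil, lprod_nil]
    have : (1 : Matrix ι ι (MvPolynomial (Fin n) ℂ)).map (fun q => pderiv e q) = 0 := by
      ext i j
      by_cases h : i = j
      · subst h; simp
      · simp [Matrix.one_apply_ne h]
    rw [this, Matrix.fromBlocks_one]
  | cons p L ih =>
    rw [List.map_cons, lprod_cons, lprod_cons, ih, lay_dlay, Matrix.fromBlocks_multiply]
    congr 1
    · simp
    · refine Matrix.ext fun i j => ?_
      simp only [Matrix.add_apply, Matrix.mul_apply, Matrix.map_apply, map_sum,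
        Derivation.leibniz, smul_eq_mul]
      rw [← Finset.sum_add_distrib]
      refine Finset.sum_congr rfl fun l _ => ?_
      ring
    · simp
    · simp

theorem RKi.pderiv (e : Fin n) {k : ℕ} {f : MvPolynomial (Fin n) ℂ} (h : RKi ι k f) :
    RKi (ι ⊕ ι) k (MvPolynomial.pderiv e f) := by
  obtain ⟨L, u, v, hL, rfl⟩ := h
  refine ⟨L.map (dlay e), Sum.elim u 0, Sum.elim 0 v, ?_, ?_⟩
  · intro i
    simpa [Function.comp_def, dlay] using hL i
  · rw [lprod_dlay]
    simp only [Fintype.sum_sum_type, Sum.elim_inl, Sum.elim_inr,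
      Matrix.fromBlocks_apply₁₂,
      Pi.zero_apply, map_zero, mul_zero, zero_mul, Finset.sum_const_zero, add_zero, zero_add,
      Matrix.map_apply, map_sum]
    refine Finset.sum_congr rfl fun i _ => ?_
    refine Finset.sum_congr rfl fun j _ => ?_
    simp [Derivation.leibniz]
    ring

theorem IsRK.zero {w k : ℕ} : IsRK w k (0 : MvPolynomial (Fin n) ℂ) := RKi.zero

theorem IsRK.add {w w' k k' : ℕ} {f g : MvPolynomial (Fin n) ℂ} (hf : IsRK w k f)
    (hg : IsRK w' k' g) : IsRK (w + w') (k + k') (f + g) :=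
  (RKi.add hf hg).reindex finSumFinEquiv

theorem IsRK.mul {w w' k k' : ℕ} {f g : MvPolynomial (Fin n) ℂ} (hf : IsRK w k f)
    (hg : IsRK w' k' g) : IsRK (w * w') (k + k') (f * g) :=
  (RKi.mul hf hg).reindex finProdFinEquiv

theorem IsRK.mono {w w' k k' : ℕ} {f : MvPolynomial (Fin n) ℂ} (hw : w ≤ w') (hk : k ≤ k')
    (h : IsRK w k f) : IsRK w' k' f := by
  have h1 := IsRK.add h (IsRK.zero (w := w' - w) (k := 0))
  rw [add_zero, add_zero, Nat.add_sub_cancel' hw] at h1
  exact RKi.mono hk h1

theorem IsRK.smul {w k : ℕ} {f : MvPolynomial (Fin n) ℂ} (c : ℂ) (h : IsRK w k f) :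
    IsRK w k (C c * f) := RKi.smul c h

theorem IsRK.pderiv {w k : ℕ} {f : MvPolynomial (Fin n) ℂ} (e : Fin n) (h : IsRK w k f) :
    IsRK (2 * w) k (MvPolynomial.pderiv e f) := by
  have := (RKi.pderiv e h).reindex finSumFinEquiv
  rw [two_mul]
  exact this

theorem IsRK.one {k : ℕ} : IsRK 1 k (1 : MvPolynomial (Fin n) ℂ) :=
  ⟨[], 1, 1, by simp, by simp [lprod_nil]⟩

theorem IsRK.sum {α : Type*} (s : Finset α) {w k : ℕ} {f : α → MvPolynomial (Fin n) ℂ}
    (h : ∀ a ∈ s, IsRK w k (f a)) : IsRK (s.card * w) (s.card * k) (∑ a ∈ s, f a) := by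
  classical
  induction s using Finset.induction_on with
  | empty => simpa using IsRK.zero
  | insert a s ha ih =>
    rw [Finset.sum_insert ha, Finset.card_insert_of_notMem ha]
    have := IsRK.add (h a (Finset.mem_insert_self a s))
      (ih fun b hb => h b (Finset.mem_insert_of_mem hb))
    have e1 : w + s.card * w = (s.card + 1) * w := by ring
    have e2 : k + s.card * k = (s.card + 1) * k := by ring
    rw [e1, e2] at this
    exact this

theorem IsRK.prod {α : Type*} (s : Finset α) {w k : ℕ} {f : α → MvPolynomial (Fin n) ℂ}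
    (h : ∀ a ∈ s, IsRK w k (f a)) : IsRK (w ^ s.card) (s.card * k) (∏ a ∈ s, f a) := by
  classical
  induction s using Finset.induction_on with
  | empty => simpa using IsRK.one
  | insert a s ha ih =>
    rw [Finset.prod_insert ha, Finset.card_insert_of_notMem ha]
    have := IsRK.mul (h a (Finset.mem_insert_self a s))
      (ih fun b hb => h b (Finset.mem_insert_of_mem hb))
    have e1 : w * w ^ s.card = w ^ (s.card + 1) := by ring
    have e2 : k + s.card * k = (s.card + 1) * k := by ring
    rw [e1, e2] at this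
    exact this

theorem IsRK.det {w k t : ℕ} (A : Fin t → Fin t → MvPolynomial (Fin n) ℂ)
    (hA : ∀ i j, IsRK w k (A i j)) :
    IsRK (t.factorial * w ^ t) (t.factorial * (t * k)) (Matrix.of A).det := by
  rw [Matrix.det_apply']
  have h := IsRK.sum (n := n) (w := w ^ t) (k := t * k) (Finset.univ : Finset (Equiv.Perm (Fin t)))
    (f := fun σ => ((Equiv.Perm.sign σ : ℤ) : MvPolynomial (Fin n) ℂ) *
      ∏ i, (Matrix.of A) (σ i) i) ?_
  · rw [Finset.card_univ, Fintype.card_perm, Fintype.card_fin] at h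
    exact h
  · intro σ _
    have h1 := IsRK.prod (n := n) (w := w) (k := k) (Finset.univ : Finset (Fin t))
      (f := fun i => (Matrix.of A) (σ i) i) (fun i _ => hA _ _)
    rw [Finset.card_univ, Fintype.card_fin] at h1
    have h2 := IsRK.smul ((Equiv.Perm.sign σ : ℤ) : ℂ) h1
    have h3 : (C (((Equiv.Perm.sign σ : ℤ) : ℂ)) : MvPolynomial (Fin n) ℂ) =
        ((Equiv.Perm.sign σ : ℤ) : MvPolynomial (Fin n) ℂ) := by
      simp
    rw [h3] at h2
    exact h2

end Pool.Agent.Helper4.RK
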